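import Pool.Agent.T6.H66.EQ.All

/-!
# Adding a fixed knot hardly changes the law of the knot type of a random lattice polygon

Let `Q` be a class of knot types of lattice polygons which is closed under connected sums, `k` a knot
in `Q`, and let `Q` be closed under removing a summand `k`. Let `K_n` be the knot type of a polygon
of length `n` in the class chosen uniformly at random. Then the law of `K_n` is almost invariant
under adding `k`, to all orders: the differences of order `r` of its law in the direction of `k` are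
`O(n ^ (-r/3))` in total variation, and `O(n ^ (-(r+1)/3))` pointwise (for single knot types, and for
every additive invariant for which `k` has a value of infinite order); the values of additive
invariants are equidistributed in the finite directions up to `O(exp (- c n ^ (2/3)))`.
-/

set_option autoImplicit false

namespace Pool.Agent.Results.MP_aea6d5_co.AddingASummand

open Finset Filter Topology KN KN.KQ
open scoped Classical

/-- `Q` is closed under removing a summand of the type of `k` -/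
def Removable (Q : List Dir → Prop) (k : List V) : Prop := ∀ l1 v l2 : List Dir, Facing l1 v l2 →
  Same (vl (.zm :: v)) k → Q (join l1 v l2) → Q (l1 ++ .zp :: l2)

/-- `φ` is a function of the (oriented) knot type -/
def Inv {β : Type} (φ : List Dir → β) : Prop :=
  ∀ w w', SAP w → SAP w' → Same (vl w) (vl w') → φ w = φ w'

/-- adding a summand of the type of `k` changes `φ` to `φ'`: `φ (w # k) = φ' w` -/
def Step {β : Type} (k : List V) (φ φ' : List Dir → β) : Prop :=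
  ∀ l1 v l2 : List Dir, Facing l1 v l2 → Same (vl (.zm :: v)) k →
    φ (join l1 v l2) = φ' (l1 ++ .zp :: l2)

/-- the closed polygon `l` is a connected sum of a polygon of the type of `k₀` and of `N` polygons of
the type of `k` -/
def SumN (k₀ k : List V) : ℕ → List V → Prop
  | 0 => fun l => Same l k₀
  | N + 1 => fun l => ∃ l1 v l2 : List Dir, Facing l1 v l2 ∧ SumN k₀ k N (vl (l1 ++ .zp :: l2)) ∧
      Same (vl (.zm :: v)) k ∧ Same l (vl (join l1 v l2))

theorem sumN_eq (k₀ k : List V) : ∀ N, SumN k₀ k N = SumsC (fun l => Same l k₀) (fun _ => k) N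
  | 0 => rfl
  | N + 1 => by
    funext l
    simp only [SumN, SumsC, sumN_eq k₀ k N]

/-- Let `Q` be a class closed under connected sums, `k` a knot in `Q`, and let `Q` be closed under
removing a summand `k`; `n = 2 j`; `w` runs over the polygons of length `n` in the class (with a root
and an orientation, which changes all numbers of polygons by the factor `2 n`).

(1) Let `F i` be functions of the knot type with values in `[-1, 1]` such that
`F i (w # k) = F (i + 1) w` (i.e. `F i w = F 0 (w # k # ... # k)`). Then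
`|∑ w, ∑ i ≤ r, (-1) ^ i (r choose i) F i w| ≤ C n ^ (-r/3) #(Q, n)`, `C` depends on `Q, k, r` only.
For `r = 1`: the total variation distance between the laws of `K_n` and `K_n # k` is
`O(n ^ (-1/3))`.
(2) If moreover `∑ i, |F i w| ≤ 1` for all `w` then the bound is `C n ^ (-(r+1)/3) #(Q, n)`.
(3) Let `φ` be a function of the knot type with values in an abelian group `A` with
`φ (w # k) = φ w + g`, and `B ⊆ A` a set which contains at most one element of each progression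
`a, a + g, a + 2 g, ...` (for instance one element if `g` has infinite order, or a half-open
interval of length `|g|` if `A = ℝ`). Then the differences of order `r` of the probability of `B` in
the direction `g` are at most `C n ^ (-(r+1)/3)`, `C` depends on `Q, k, r` only. For `r = 0`: the
probability of `φ ∈ B` is at most `C n ^ (-1/3)`.
(4) If `q g = 0`, `q ≥ 1`, `B ⊆ A` arbitrary, then the probabilities of `φ ∈ B` and of `φ + g ∈ B`
differ by at most `C exp (- c n ^ (2/3))`, `c, C` depend on `Q, k, q` only.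
(5) The analogue of (3) for the knot type itself, if the group of `k` has a finite quotient which is
not cyclic; and the number of polygons of a single knot type in `Q` is at most
`C n ^ (-1/3) pq Q n`, uniformly in the knot type.
(6) Functions `Z` of the knot type with `Z (w # k) = ζ Z w`, `|ζ| ≤ 1`. -/
theorem result : ∀ Q : List Dir → Prop, KClass Q → CSum Q → ∀ k : List V,
    (∃ w, SAP w ∧ Q w ∧ Same (vl w) k) → Removable Q k →
    (∀ r : ℕ, ∃ C : ℝ, 0 < C ∧ ∀ F : ℕ → List Dir → ℝ, (∀ i, Inv (F i)) →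
      (∀ i, Step k (F i) (F (i + 1))) → (∀ i w, |F i w| ≤ 1) → ∀ j : ℕ,
      |∑ w ∈ K Q (2 * j), ∑ i ∈ range (r + 1), (-1 : ℝ) ^ i * (r.choose i : ℝ) * F i w| ≤
        C * (2 * j : ℝ) ^ (-(r / 3 : ℝ)) * a Q (2 * j)) ∧
    (∀ r : ℕ, ∃ C : ℝ, 0 < C ∧ ∀ F : ℕ → List Dir → ℝ, (∀ i, Inv (F i)) →
      (∀ i, Step k (F i) (F (i + 1))) → (∀ w, SAP w → ∀ N, ∑ i ∈ range N, |F i w| ≤ 1) → ∀ j : ℕ,
      |∑ w ∈ K Q (2 * j), ∑ i ∈ range (r + 1), (-1 : ℝ) ^ i * (r.choose i : ℝ) * F i w| ≤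
        C * (2 * j : ℝ) ^ (-((r + 1) / 3 : ℝ)) * a Q (2 * j)) ∧
    (∀ r : ℕ, ∃ C : ℝ, 0 < C ∧ ∀ (A : Type) [AddCommGroup A] (g : A) (B : Set A),
      (∀ x ∈ B, ∀ i : ℕ, 0 < i → x + i • g ∉ B) →
      ∀ φ : List Dir → A, Inv φ → Step k φ (fun w => φ w + g) → ∀ j : ℕ,
      |∑ i ∈ range (r + 1), (-1 : ℝ) ^ i * (r.choose i : ℝ) *
        (((K Q (2 * j)).filter (fun w => φ w + i • g ∈ B)).card : ℝ)| ≤
        C * (2 * j : ℝ) ^ (-((r + 1) / 3 : ℝ)) * a Q (2 * j)) ∧
    (∀ q : ℕ, 0 < q → ∃ c C : ℝ, 0 < c ∧ 0 < C ∧ ∀ (A : Type) [AddCommGroup A] (g : A),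
      q • g = 0 → ∀ φ : List Dir → A, Inv φ → Step k φ (fun w => φ w + g) →
      ∀ (B : Set A) (j : ℕ),
      |(((K Q (2 * j)).filter (fun w => φ w ∈ B)).card : ℝ) -
        (((K Q (2 * j)).filter (fun w => φ w + g ∈ B)).card : ℝ)| ≤
        C * Real.exp (-(c * (2 * j : ℝ) ^ (2 / 3 : ℝ))) * a Q (2 * j)) ∧
    (FNAG k → (∀ r : ℕ, ∃ C : ℝ, 0 < C ∧ ∀ w₀, SAP w₀ → ∀ j : ℕ,
      |∑ i ∈ range (r + 1), (-1 : ℝ) ^ i * (r.choose i : ℝ) *
        (((K Q (2 * j)).filter (fun w => SumN (vl w) k i (vl w₀))).card : ℝ)| ≤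
        C * (2 * j : ℝ) ^ (-((r + 1) / 3 : ℝ)) * a Q (2 * j)) ∧
      ∃ C : ℝ, 0 < C ∧ ∀ w₀, SAP w₀ → Q w₀ → ∀ j : ℕ,
        pq (KT (vl w₀)) (2 * j) ≤ C * (2 * j : ℝ) ^ (-(1 / 3) : ℝ) * pq Q (2 * j)) ∧
    (∃ c C : ℝ, 0 < c ∧ 0 < C ∧ ∀ ζ : ℂ, ‖ζ‖ ≤ 1 → ∀ Z : List Dir → ℂ, Inv Z →
      Step k Z (fun w => ζ * Z w) → (∀ w, ‖Z w‖ ≤ 1) → ∀ j : ℕ,
      ‖∑ w ∈ K Q (2 * j), Z w‖ ≤ ((‖1 + ζ‖ / 2) ^ (c * (2 * j : ℝ) ^ (2 / 3 : ℝ)) +
        C * Real.exp (-(c * (2 * j : ℝ) ^ (2 / 3 : ℝ)))) * a Q (2 * j)) := by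
  intro Q hQ hc k hk hrem
  obtain ⟨c, C, hc0, hC0, hP⟩ := Pool.Agent.T6.H66.EQ.princ hQ hc hk hrem
  refine ⟨fun r => ?_, fun r => ?_, fun r => ?_, fun q hq => ?_, fun hF => ⟨fun r => ?_, ?_⟩, ?_⟩
  · obtain ⟨C₁, h1, h2⟩ := Pool.Agent.T6.H66.EQ.thmA Pool.Agent.T6.H66.EQ.cube hc0 hC0 hP r
    exact ⟨C₁, h1, fun F a1 a2 a3 j => h2 F ⟨a1, a2⟩ a3 j⟩
  · obtain ⟨C₁, h1, h2⟩ := Pool.Agent.T6.H66.EQ.thmB Pool.Agent.T6.H66.EQ.cube hc0 hC0 hP r
    exact ⟨C₁, h1, fun F a1 a2 a3 j => h2 F ⟨a1, a2⟩ a3 j⟩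
  · obtain ⟨C₁, h1, h2⟩ := Pool.Agent.T6.H66.EQ.thmF Pool.Agent.T6.H66.EQ.cube hc0 hC0 hP r
    exact ⟨C₁, h1, fun A _ g B hB φ a1 a2 j => h2 A g B hB φ a1 a2 j⟩
  · obtain ⟨c₁, C₁, h0, h1, h2⟩ :=
      Pool.Agent.T6.H66.EQ.thmD Pool.Agent.T6.H66.EQ.cube hc0 hC0 hP q hq
    exact ⟨c₁, C₁, h0, h1, fun A _ g hg φ a1 a2 B j => h2 A g hg φ a1 a2 B j⟩
  · obtain ⟨C₁, h1, h2⟩ := Pool.Agent.T6.H66.EQ.thmE Pool.Agent.T6.H66.EQ.cube hF hc0 hC0 hP r
    refine ⟨C₁, h1, fun w₀ hw₀ j => ?_⟩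
    have h3 := h2 w₀ hw₀ j
    simp only [sumN_eq]
    exact h3
  · obtain ⟨C₁, h1, h2⟩ := Pool.Agent.T6.H66.EQ.thmE Pool.Agent.T6.H66.EQ.cube hF hc0 hC0 hP 0
    refine ⟨2 * C₁, by positivity, fun w₀ hw₀ hQw₀ j => ?_⟩
    obtain ⟨hb, hbs⟩ := back_same hw₀
    have key : ∀ w₁, SAP w₁ → (((K Q (2 * j)).filter (fun w => Same (vl w₁) (vl w))).card : ℝ) ≤
        C₁ * (2 * j : ℝ) ^ (-(1 / 3) : ℝ) * a Q (2 * j) := by
      intro w₁ hw₁
      have h3 := h2 w₁ hw₁ j
      simp only [zero_add, range_one, sum_singleton, pow_zero, Nat.choose_zero_right,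
        Nat.cast_one, one_mul, Nat.cast_zero] at h3
      exact (le_abs_self _).trans h3
    have hsub : K (KT (vl w₀)) (2 * j) ⊆
        (K Q (2 * j)).filter (fun w => Same (vl w₀) (vl w)) ∪
        (K Q (2 * j)).filter (fun w => Same (vl (back w₀)) (vl w)) := by
      intro w hw
      obtain ⟨b1, b2, b3⟩ := mem_K.1 hw
      have hQw : Q w := by
        rcases b3 with h | h
        · exact hQ.same w₀ w hw₀ b2 h.symm hQw₀
        · refine hQ.rev w₀ w hw₀ b2 ?_ hQw₀
          have h2 := (c_rev _ _).2 h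
          rw [List.reverse_reverse] at h2
          exact h2.symm
      have hwK : w ∈ K Q (2 * j) := mem_K.2 ⟨b1, b2, hQw⟩
      rcases b3 with h | h
      · exact mem_union_left _ (mem_filter.2 ⟨hwK, h.symm⟩)
      · exact mem_union_right _ (mem_filter.2 ⟨hwK, hbs.trans h.symm⟩)
    have h3 : ((a (KT (vl w₀)) (2 * j) : ℕ) : ℝ) ≤
        2 * C₁ * (2 * j : ℝ) ^ (-(1 / 3) : ℝ) * a Q (2 * j) := by
      have h4 := (card_le_card hsub).trans (card_union_le _ _)
      have h5 : ((a (KT (vl w₀)) (2 * j) : ℕ) : ℝ) ≤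
          (((K Q (2 * j)).filter (fun w => Same (vl w₀) (vl w))).card : ℝ) +
          (((K Q (2 * j)).filter (fun w => Same (vl (back w₀)) (vl w))).card : ℝ) := by
        exact_mod_cast h4
      have h6 := key w₀ hw₀
      have h7 := key (back w₀) hb
      linarith
    unfold pq
    rw [← mul_div_assoc]
    exact div_le_div_of_nonneg_right h3 (by positivity)
  · exact ⟨c, C, hc0, hC0, fun ζ hζ Z a1 a2 a3 j =>
      Pool.Agent.T6.H66.EQ.thmC Pool.Agent.T6.H66.EQ.cube hc0 hP ζ hζ Z a1 a2 a3 j⟩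

end Pool.Agent.Results.MP_aea6d5_co.AddingASummand
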