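import Pool.Agent.T6.H92.TK.Fin3
import Pool.Agent.T6.H92.TK.LK

/-!
# Lattice knots: the numbers of polygons are smooth functions of the length, of every order
-/

set_option autoImplicit false

namespace Pool.Agent.Results.MP_aea6d5_co.AllOrderSmoothness

open Filter Topology KN

noncomputable section

/-- the normalised numbers `p_n / μ ^ n` for `n = 2 m` -/
def u (Q : List Dir → Prop) (m : ℕ) : ℝ := pq Q (2 * m) / gr Q ^ (2 * m)

/-- iterated forward differences -/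
def diff : ℕ → (ℕ → ℝ) → ℕ → ℝ
  | 0, f, m => f m
  | k + 1, f, m => diff k f (m + 1) - diff k f m

theorem diff_eq (k : ℕ) (f : ℕ → ℝ) : ∀ m, diff k f m = Pool.Agent.T6.H92.TG.D k f m := by
  induction k with
  | zero => intro m; rfl
  | succ k ih =>
    intro m
    show diff k f (m + 1) - diff k f m = _
    rw [ih, ih]
    rfl

theorem general (Q : List Dir → Prop) (hQ : KClass Q) (hne : ∃ w, SAP w ∧ Q w) (k : ℕ) :
    ∃ (C δ : ℝ) (m₀ : ℕ), 0 < δ ∧ ∀ m ≥ m₀, ∀ Λ : ℝ, 1 ≤ Λ → Real.log Λ ≤ δ * m →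
      Real.exp (-(δ * m)) ≤ u Q m → (∀ l, m ≤ 2 * l → l ≤ 2 * m → u Q l ≤ Λ * u Q m) →
      |diff k (u Q) m| ≤ C * (Real.sqrt ((1 + Real.log Λ) / m) ^ k * u Q m) := by
  obtain ⟨C, δ, N₀, hC, hδ, hgen⟩ := Pool.Agent.T6.H92.TK.gen Q hQ hne k
  obtain ⟨hg1, -, -⟩ := gr_bounds Q hQ hne
  have hμ : 0 < gr Q := by linarith
  refine ⟨C * Real.sqrt 2 ^ k, δ / 2, max (max N₀ 1) ⌈2 / δ⌉₊, by positivity, ?_⟩
  intro m hm Λ hΛ hlog hlow hgr
  have hm0 : m ≥ N₀ := (le_max_left _ _).trans ((le_max_left _ _).trans hm)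
  have hm1 : 1 ≤ m := (le_max_right _ _).trans ((le_max_left _ _).trans hm)
  have hm2 : 2 / δ ≤ (m : ℝ) := (Nat.le_ceil _).trans (by exact_mod_cast (le_max_right _ _).trans hm)
  have hmp : (0 : ℝ) < m := by exact_mod_cast hm1
  have hm1' : (1 : ℝ) ≤ m := by exact_mod_cast hm1
  have hu : 0 < u Q m := (Real.exp_pos _).trans_le hlow
  have hl2 := Real.log_two_lt_d9
  have hl2' : 0 < Real.log 2 := Real.log_pos (by norm_num)
  have hlΛ : 0 ≤ Real.log Λ := Real.log_nonneg hΛ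
  have hlog2 : Real.log (2 * Λ) = Real.log 2 + Real.log Λ :=
    Real.log_mul (by norm_num) (by linarith)
  rw [div_le_iff₀ hδ] at hm2
  have h3 := hgen m hm0 (2 * Λ) (by linarith) (by rw [hlog2]; nlinarith)
    (by
      rw [Pool.Agent.T6.H92.TK.ModKCNT.u_eq Q hμ m hm1]
      show Real.exp (-(δ * m)) ≤ 4 * m * u Q m
      have e1 : Real.exp (-(δ * m)) ≤ Real.exp (-(δ / 2 * m)) := by
        apply Real.exp_le_exp.2
        have : 0 ≤ δ * m := by positivity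
        linarith
      have e2 := e1.trans hlow
      nlinarith)
    (fun n hn1 hn2 => by
      rw [Pool.Agent.T6.H92.TK.ModKCNT.u_eq Q hμ m hm1,
        Pool.Agent.T6.H92.TK.ModKCNT.u_eq Q hμ n (by omega)]
      show 4 * (n : ℝ) * u Q n ≤ 2 * Λ * (4 * m * u Q m)
      have hn2r : (n : ℝ) ≤ 2 * m := by exact_mod_cast hn2
      have hn0 : (0 : ℝ) ≤ n := Nat.cast_nonneg _
      calc 4 * (n : ℝ) * u Q n ≤ 4 * n * (Λ * u Q m) :=
            mul_le_mul_of_nonneg_left (hgr n hn1 hn2) (by positivity)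
        _ ≤ 4 * (2 * m) * (Λ * u Q m) := by gcongr
        _ = _ := by ring)
  rw [diff_eq]
  refine h3.trans ?_
  have h4 : Real.sqrt ((1 + Real.log (2 * Λ)) / m) ≤
      Real.sqrt 2 * Real.sqrt ((1 + Real.log Λ) / m) := by
    rw [← Real.sqrt_mul (by norm_num)]
    apply Real.sqrt_le_sqrt
    rw [hlog2, ← mul_div_assoc]
    apply div_le_div_of_nonneg_right _ hmp.le
    linarith
  calc C * (Real.sqrt ((1 + Real.log (2 * Λ)) / m) ^ k * u Q m) ≤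
      C * ((Real.sqrt 2 * Real.sqrt ((1 + Real.log Λ) / m)) ^ k * u Q m) := by gcongr
    _ = _ := by rw [mul_pow]; ring

/-- Let `Q` be a class of knot types (for instance one knot type), `p_n` the number of polygons of
length `n` in `ℤ³` whose knot type is in `Q`, `μ` their growth rate, `u_m = p_(2m) / μ ^ (2m)`, and
`Δ` the forward difference in `m`.  Then for every `k`:

(1) if `Q` is closed under connected sums (for instance the unknot) then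
`|Δ^k u_m| ≤ C ((4 + log (μ^n / p_n)) / n)^(k/2) u_m` for all large `n = 2m`;

(2) for every `Q` with `n^(-b) μ^n ≤ p_n ≤ n^b μ^n` for large even `n`:
`|Δ^k u_m| ≤ C (log n / n)^(k/2) u_m` for all large `n = 2m`;

(3) if `p_n ~ A n^(α-3) μ^n`, `A > 0`, along the even `n` then `|Δ^k u_m| ≤ C n^(-k/2) u_m`, and
`Δ^k u_m / u_m = o(n^(-k/2))` if `k ≥ 1`;

(4) if `log (p_n / μ^n) / log n` converges then `Δ^k u_m / u_m = o((log n / n)^(k/2))` if `k ≥ 1`;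

(5) for every `Q` there are `C` and `δ > 0` such that
`|Δ^k u_m| ≤ C ((1 + log Λ) / m)^(k/2) u_m` for all large `m` and all `Λ` with
`1 ≤ Λ ≤ exp (δ m)`, `u_m ≥ exp (-δ m)` and `u_l ≤ Λ u_m` for `m / 2 ≤ l ≤ 2 m`. -/
theorem result :
    (∀ Q : List Dir → Prop, KClass Q → (∃ w, SAP w ∧ Q w) → ∀ k : ℕ,
      (CSum Q → ∃ C : ℝ, ∀ᶠ m : ℕ in atTop, |diff k (u Q) m| ≤
        C * (Real.sqrt ((4 + Real.log (gr Q ^ (2 * m) / pq Q (2 * m))) / (2 * m)) ^ k * u Q m)) ∧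
      (∀ b : ℕ, (∀ᶠ m : ℕ in atTop, gr Q ^ (2 * m) ≤ (2 * m : ℝ) ^ b * pq Q (2 * m) ∧
          pq Q (2 * m) ≤ (2 * m : ℝ) ^ b * gr Q ^ (2 * m)) →
        ∃ C : ℝ, ∀ᶠ m : ℕ in atTop, |diff k (u Q) m| ≤
          C * (Real.sqrt (Real.log (2 * m) / (2 * m)) ^ k * u Q m)) ∧
      (∀ A α : ℝ, 0 < A →
        Tendsto (fun m : ℕ => pq Q (2 * m) / ((2 * m : ℝ) ^ (α - 3) * gr Q ^ (2 * m))) atTop
          (𝓝 A) →
        (∃ C : ℝ, ∀ᶠ m : ℕ in atTop, |diff k (u Q) m| ≤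
          C * ((1 / Real.sqrt (2 * m)) ^ k * u Q m)) ∧
        (1 ≤ k → Tendsto (fun m : ℕ => diff k (u Q) m / u Q m * Real.sqrt (2 * m) ^ k) atTop
          (𝓝 0))) ∧
      (∀ β : ℝ,
        Tendsto (fun m : ℕ => Real.log (pq Q (2 * m) / gr Q ^ (2 * m)) / Real.log (2 * m)) atTop
          (𝓝 β) →
        1 ≤ k → Tendsto (fun m : ℕ => diff k (u Q) m / u Q m *
          Real.sqrt (2 * m / Real.log (2 * m)) ^ k) atTop (𝓝 0)) ∧
      (∃ (C δ : ℝ) (m₀ : ℕ), 0 < δ ∧ ∀ m ≥ m₀, ∀ Λ : ℝ, 1 ≤ Λ → Real.log Λ ≤ δ * m →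
        Real.exp (-(δ * m)) ≤ u Q m → (∀ l, m ≤ 2 * l → l ≤ 2 * m → u Q l ≤ Λ * u Q m) →
        |diff k (u Q) m| ≤ C * (Real.sqrt ((1 + Real.log Λ) / m) ^ k * u Q m))) ∧
    (∀ k : List V, KClass (KT k)) ∧ KClass U ∧ CSum U ∧ ∃ w, SAP w ∧ U w := by
  refine ⟨fun Q hQ hne k => ⟨fun hc => ?_, fun b hb => ?_, fun A α hA h => ⟨?_, fun hk => ?_⟩,
    fun β h hk => ?_, general Q hQ hne k⟩,
    GEN.kt_class, GEN.kt_class sq, GEN.u_csum, ⟨sqw, c_sq.2.1, Or.inl (Same.refl _)⟩⟩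
  · obtain ⟨C, -, hC⟩ := Pool.Agent.T6.H92.TK.closed_all Q hQ hne hc k
    refine ⟨C, hC.mono fun m hm => ?_⟩
    rw [diff_eq]
    exact hm
  · obtain ⟨C, -, hC⟩ := Pool.Agent.T6.H92.TK.poly_all Q hQ hne b hb k
    refine ⟨C, hC.mono fun m hm => ?_⟩
    rw [diff_eq]
    exact hm
  · obtain ⟨C, -, hC⟩ := Pool.Agent.T6.H92.TK.form_all Q hQ hne hA h k
    refine ⟨C, hC.mono fun m hm => ?_⟩
    rw [diff_eq]
    exact hm
  · simp only [diff_eq]
    exact Pool.Agent.T6.H92.TK.form_o Pool.Agent.T6.H92.TK.lk Q hQ hne hA h k hk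
  · simp only [diff_eq]
    exact Pool.Agent.T6.H92.TK.expo_o Pool.Agent.T6.H92.TK.lk Q hQ hne h k hk

end

end Pool.Agent.Results.MP_aea6d5_co.AllOrderSmoothness
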