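import Pool.Agent.T6.H6.KS.Sm2

/-!
# Lattice knots: the law of the knot type varies slowly with the length, to all orders

A random polygon of length `n = 2 m` in a class `Q` of knot types is considered.  The conditional
means of functions of the knot type, the conditional probabilities of sets of knot types and the
quotients of the numbers of polygons of two sets of knot types are smooth functions of `m` of every
order: the `k`-th differences are at most `C (λ / n) ^ (k / 2)` times the quantity, uniformly in the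
sets and functions, where `exp (- λ)` is a lower bound for the normalised numbers of polygons.
-/

set_option autoImplicit false

namespace Pool.Agent.Results.MP_aea6d5_co.SmoothLawOfTheType

open Finset Filter Topology KN
open scoped Classical

noncomputable section

/-- iterated forward differences -/
def diff : ℕ → (ℕ → ℝ) → ℕ → ℝ
  | 0, f, m => f m
  | k + 1, f, m => diff k f (m + 1) - diff k f m

/-- `A` is a set of (oriented) knot types -/
def IsSet (A : List Dir → Prop) : Prop :=
  ∀ w w', SAP w → SAP w' → Same (vl w) (vl w') → (A w ↔ A w')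

/-- `F` is a function of the (oriented) knot type -/
def IsFun (F : List Dir → ℝ) : Prop :=
  ∀ w w', SAP w → SAP w' → Same (vl w) (vl w') → F w = F w'

/-- the number of the closed words of length `2 m` (polygons with `2 m` edges, a root and an
orientation) in the class `Q` with knot type in `A` -/
def num (Q A : List Dir → Prop) (m : ℕ) : ℝ := (((K Q (2 * m)).filter A).card : ℝ)

/-- the normalised number `p_(2m)(A) / μ ^ (2m)` of the polygons with `2 m` edges in the class `Q`
with knot type in `A`, `μ` the growth rate of `Q` -/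
def u (Q A : List Dir → Prop) (m : ℕ) : ℝ := pq (fun w => Q w ∧ A w) (2 * m) / gr Q ^ (2 * m)

/-- the sum of `F` over the closed words in the class `Q` with knot type in `A`, divided by the
number of those with knot type in `B`; for `A ⊆ B` this is the conditional mean `E (F 1_A | B)` at
the length `2 m` -/
def quo (Q A B : List Dir → Prop) (F : List Dir → ℝ) (m : ℕ) : ℝ :=
  (∑ w ∈ (K Q (2 * m)).filter A, F w) / num Q B m

/-- the estimates of order `k` with rate `r` at the length `2 m` and in the window `h r ≤ W`: for all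
functions `F` of the knot type with `|F| ≤ M` on the words in question, the `k`-th difference of
`quo Q A B F` is at most `C r ^ k M (num A / num B)`, and it is a polynomial in `h` of degree `< k`
up to the error `C (h r) ^ k M (num A / num B)` -/
def Est (Q : List Dir → Prop) (k : ℕ) (C W r : ℝ) (m : ℕ) (A B : List Dir → Prop) : Prop :=
  ∀ (F : List Dir → ℝ) (M : ℝ), IsFun F →
    (∀ w, SAP w → Q w → A w → w.length ≤ 4 * m → |F w| ≤ M) →
    ∀ h : ℕ, (h : ℝ) * r ≤ W →
      |diff k (quo Q A B F) (m + h)| ≤ C * r ^ k * (M * (num Q A m / num Q B m)) ∧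
      |quo Q A B F (m + h) - ∑ j ∈ range k, (h.choose j : ℝ) * diff j (quo Q A B F) m| ≤
        C * ((h : ℝ) * r) ^ k * (M * (num Q A m / num Q B m))

theorem diff_eq (k : ℕ) (f : ℕ → ℝ) : ∀ m, diff k f m = Pool.Agent.T6.H92.TG.D k f m := by
  induction k with
  | zero => intro m; rfl
  | succ k ih =>
    intro m
    show diff k f (m + 1) - diff k f m = _
    rw [ih, ih]
    rfl

theorem est_of {Q : List Dir → Prop} {k : ℕ} {C W r : ℝ} {m : ℕ} {A B : List Dir → Prop}
    (h : Pool.Agent.T6.H6.KS.Smooth Q k C W r m A B) : Est Q k C W r m A B := by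
  intro F M hF hFM l hl
  obtain ⟨h1, h2⟩ := h F M hF hFM l hl
  constructor
  · rw [diff_eq]
    exact h1
  · have h3 : ∑ j ∈ range k, (l.choose j : ℝ) * diff j (quo Q A B F) m =
        ∑ j ∈ range k, (l.choose j : ℝ) *
          Pool.Agent.T6.H92.TG.D j (Pool.Agent.T6.H6.KS.qm Q A B F) m := by
      refine Finset.sum_congr rfl fun j _ => ?_
      rw [diff_eq]
      rfl
    rw [h3]
    exact h2

theorem all_class : KClass (fun _ => True) := ⟨fun _ _ _ _ _ _ => trivial, fun _ _ _ _ _ _ => trivial⟩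

theorem all_csum : CSum (fun _ => True) := fun _ _ _ _ _ _ => trivial

theorem filter_univ (s : Finset (List Dir)) (h : DecidablePred (fun _ : List Dir => True)) :
    @Finset.filter _ (fun _ => True) h s = s := by
  ext w
  simp

theorem u_univ (Q : List Dir → Prop) (m : ℕ) : u Q (fun _ => True) m = pq Q (2 * m) / gr Q ^ (2 * m) := by
  unfold u
  simp only [and_true]

/-- Let `Q` be a class of knot types (for instance one knot type, or all knot types), `p_n` the number
of polygons of length `n` in `ℤ³` with knot type in `Q`, `μ` their growth rate.  A random polygon of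
length `n = 2 m` in the class is considered; `A` and `B` are any sets of knot types, `F` any function
of the knot type, `p_n(A)` is the number of polygons of length `n` in the class with type in `A`; the
differences are taken in `m`, `Est ... r m A B` are the estimates of order `k` and rate `r` for
`(∑ F over A) / (number of B)` (conditional means and probabilities for `A ⊆ B`, the quotient
`p_n(A) / p_n(B)` for `F = 1`).  `C`, `δ`, `m₀` depend only on `Q, k, W`.

(1) Every class: rate `√(λ / m)` if `1 ≤ λ ≤ δ m`, `p_n(A)` and `p_n(B)` are at least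
`exp (- δ m) μ ^ n`, and `p_l / μ ^ l ≤ exp λ p_n(A) / μ ^ n` and `≤ exp λ p_n(B) / μ ^ n` for the
even `l` between `n / 2` and `5 n`.

(2) Classes closed under connected sums (for instance all knots, or the unknot), without further
hypothesis: rate `√(λ / m)` if `1 ≤ λ ≤ δ m` and `p_n(A), p_n(B) ≥ exp (- λ) μ ^ n`.

(3) In particular, for these classes and every `H`, the total variation distance between the laws of
the knot types of random polygons of length `n` and `n + 2 h`, `h ≤ H`, tends to `0`.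

(4) If `p_n ~ c n^(α-3) μ^n`, `c > 0`, for the class `Q`, then the rate is `√(λ / m)` for all sets
`A, B` whose probabilities are at least `exp (- λ)`, `1 ≤ λ ≤ δ m`; for sets of probability bounded
below the `k`-th differences are `O(n ^ (- k / 2))`.

(5) The classes to which this applies. -/
theorem result :
    (∀ Q : List Dir → Prop, KClass Q → (∃ w, SAP w ∧ Q w) → ∀ (k : ℕ) (W : ℝ),
      (∃ (C δ : ℝ) (m₀ : ℕ), 0 < δ ∧ ∀ m ≥ m₀, ∀ (lam : ℝ) (A B : List Dir → Prop),
        IsSet A → IsSet B → 1 ≤ lam → lam ≤ δ * m →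
        Real.exp (-(δ * m)) ≤ u Q A m → Real.exp (-(δ * m)) ≤ u Q B m →
        (∀ l : ℕ, m ≤ 2 * l → l ≤ 5 * m →
          pq Q (2 * l) / gr Q ^ (2 * l) ≤ Real.exp lam * u Q A m ∧
          pq Q (2 * l) / gr Q ^ (2 * l) ≤ Real.exp lam * u Q B m) →
        Est Q k C W (Real.sqrt (lam / m)) m A B) ∧
      (CSum Q → ∃ (C δ : ℝ) (m₀ : ℕ), 0 < δ ∧ ∀ m ≥ m₀, ∀ (lam : ℝ) (A B : List Dir → Prop),
        IsSet A → IsSet B → 1 ≤ lam → lam ≤ δ * m →
        Real.exp (-lam) ≤ u Q A m → Real.exp (-lam) ≤ u Q B m →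
        Est Q k C W (Real.sqrt (lam / m)) m A B) ∧
      (CSum Q → ∀ (H : ℕ) (ε : ℝ), 0 < ε → ∀ᶠ m : ℕ in atTop, ∀ h ≤ H, ∀ F : List Dir → ℝ,
        IsFun F → (∀ w, |F w| ≤ 1) →
          |(∑ w ∈ K Q (2 * (m + h)), F w) / a Q (2 * (m + h)) -
            (∑ w ∈ K Q (2 * m), F w) / a Q (2 * m)| ≤ ε) ∧
      (∀ c α : ℝ, 0 < c →
        Tendsto (fun j : ℕ => pq Q (2 * j) / ((2 * j : ℝ) ^ (α - 3) * gr Q ^ (2 * j))) atTop
          (𝓝 c) →
        ∃ (C δ : ℝ) (m₀ : ℕ), 0 < δ ∧ ∀ m ≥ m₀, ∀ (lam : ℝ) (A B : List Dir → Prop),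
          IsSet A → IsSet B → 1 ≤ lam → lam ≤ δ * m →
          Real.exp (-lam) ≤ num Q A m / a Q (2 * m) → Real.exp (-lam) ≤ num Q B m / a Q (2 * m) →
          Est Q k C W (Real.sqrt (lam / m)) m A B)) ∧
    (∀ k : List V, KClass (KT k)) ∧ (KClass U ∧ CSum U ∧ ∃ w, SAP w ∧ U w) ∧
      KClass (fun _ => True) ∧ CSum (fun _ => True) := by
  refine ⟨fun Q hQ hne k W => ⟨?_, fun hc => ?_, fun hc H ε hε => ?_, fun c α hc hform => ?_⟩,
    GEN.kt_class, ⟨GEN.kt_class sq, GEN.u_csum, ⟨sqw, c_sq.2.1, Or.inl (Same.refl _)⟩⟩,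
    all_class, all_csum⟩
  · obtain ⟨C, δ, m₀, -, hδ, h⟩ := Pool.Agent.T6.H6.KS.smooth_gen hQ hne k W
    refine ⟨C, δ, m₀, hδ, fun m hm lam A B hA hB h1 h2 h3 h4 h5 => est_of ?_⟩
    exact h m hm lam A B hA hB h1 h2 ⟨h3, fun l hl1 hl2 => (h5 l hl1 hl2).1⟩
      ⟨h4, fun l hl1 hl2 => (h5 l hl1 hl2).2⟩
  · obtain ⟨C, δ, m₀, -, hδ, h⟩ := Pool.Agent.T6.H6.KS.smooth_csum hQ hne hc k W
    exact ⟨C, δ, m₀, hδ, fun m hm lam A B hA hB h1 h2 h3 h4 =>
      est_of (h m hm lam A B hA hB h1 h2 h3 h4)⟩
  · obtain ⟨C, δ, m₀, hC, hδ, h⟩ := Pool.Agent.T6.H6.KS.smooth_csum hQ hne hc 1 1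
    obtain ⟨g1, -, -⟩ := gr_bounds Q hQ hne
    have hμ : 0 < gr Q := by linarith
    have hlog := Pool.Agent.R945.KR.log_csum Q hQ hne hc
    have hH : (0 : ℝ) ≤ H := Nat.cast_nonneg H
    -- a small bound for `lam / m`
    obtain ⟨s, hs⟩ : ∃ s : ℝ, s = min (1 / ((H : ℝ) + 1)) (ε / ((C + 1) * (H + 1))) := ⟨_, rfl⟩
    have hs0 : 0 < s := by rw [hs]; exact lt_min (by positivity) (by positivity)
    have hs1 : s ≤ 1 / ((H : ℝ) + 1) := by rw [hs]; exact min_le_left _ _
    have hs2 : s ≤ ε / ((C + 1) * (H + 1)) := by rw [hs]; exact min_le_right _ _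
    obtain ⟨η, hη⟩ : ∃ η : ℝ, η = min δ (s ^ 2) := ⟨_, rfl⟩
    have hη0 : 0 < η := by rw [hη]; exact lt_min hδ (by positivity)
    have hη1 : η ≤ δ := by rw [hη]; exact min_le_left _ _
    have hη2 : η ≤ s ^ 2 := by rw [hη]; exact min_le_right _ _
    have hev : ∀ᶠ m : ℕ in atTop, -η < Real.log (TH966.KS.yq Q m) / m :=
      hlog.eventually_const_lt (by linarith)
    obtain ⟨N₂, hN₂⟩ : ∃ M : ℕ, 1 / η ≤ M := _root_.exists_nat_ge _
    filter_upwards [hev, class_pos Q hQ hne, eventually_ge_atTop (max m₀ (max 1 N₂))] with m m1 m2 m3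
    have a1 : m₀ ≤ m := (le_max_left _ _).trans m3
    have a2 : 1 ≤ m := (le_max_left _ _).trans ((le_max_right _ _).trans m3)
    have a3 : (N₂ : ℝ) ≤ m := by
      exact_mod_cast (le_max_right _ _).trans ((le_max_right _ _).trans m3)
    have hmp : (0 : ℝ) < m := by exact_mod_cast (by omega : 0 < m)
    have b1 : 1 ≤ η * m := by
      have := hN₂.trans a3
      rw [div_le_iff₀ hη0] at this
      linarith
    obtain ⟨y, hy⟩ : ∃ y : ℝ, y = TH966.KS.yq Q m := ⟨_, rfl⟩
    rw [← hy] at m1
    have hy0 : 0 < y := by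
      rw [hy]
      exact div_pos m2 (pow_pos hμ _)
    have b2 : -Real.log y ≤ η * m := by
      rw [lt_div_iff₀ hmp] at m1
      linarith
    obtain ⟨lam, hlam⟩ : ∃ lam : ℝ, lam = max 1 (-Real.log y) := ⟨_, rfl⟩
    have c1 : 1 ≤ lam := by rw [hlam]; exact le_max_left _ _
    have c2 : -Real.log y ≤ lam := by rw [hlam]; exact le_max_right _ _
    have c3 : lam ≤ η * m := by rw [hlam]; exact max_le b1 b2
    have c4 : Real.exp (-lam) ≤ y := by
      calc Real.exp (-lam) ≤ Real.exp (Real.log y) := Real.exp_le_exp.2 (by linarith)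
        _ = y := Real.exp_log hy0
    have hya : Pool.Agent.T6.H6.KS.ya Q (fun _ => True) m = y := by
      rw [hy]
      exact u_univ Q m
    have hset : IsSet (fun _ => True) := fun _ _ _ _ _ => Iff.rfl
    have hsm := h m a1 lam (fun _ => True) (fun _ => True) hset hset c1
      (c3.trans (mul_le_mul_of_nonneg_right hη1 hmp.le)) (by rw [hya]; exact c4)
      (by rw [hya]; exact c4)
    intro l hl F hF hF1
    have hr : Real.sqrt (lam / m) ≤ s := by
      apply Real.sqrt_le_iff.2
      refine ⟨hs0.le, ?_⟩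
      rw [div_le_iff₀ hmp]
      exact c3.trans (mul_le_mul_of_nonneg_right hη2 hmp.le)
    have hlr : (l : ℝ) ≤ H := by exact_mod_cast hl
    have hls : (l : ℝ) * Real.sqrt (lam / m) ≤ H * s :=
      mul_le_mul hlr hr (Real.sqrt_nonneg _) hH
    have hHs : H * s ≤ 1 := by
      calc H * s ≤ H * (1 / ((H : ℝ) + 1)) := mul_le_mul_of_nonneg_left hs1 hH
        _ = H / ((H : ℝ) + 1) := by ring
        _ ≤ 1 := by rw [div_le_one (by positivity)]; linarith
    have h2 := (hsm F 1 hF (fun w _ _ _ _ => hF1 w) l (hls.trans hHs)).2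
    have e1 : ∀ n, Pool.Agent.T6.H6.KS.qm Q (fun _ => True) (fun _ => True) F n =
        (∑ w ∈ K Q (2 * n), F w) / a Q (2 * n) := by
      intro n
      unfold Pool.Agent.T6.H6.KS.qm a
      rw [filter_univ]
    have e2 : Pool.Agent.T6.H6.KS.qc Q (fun _ => True) (fun _ => True) m ≤ 1 := by
      unfold Pool.Agent.T6.H6.KS.qc
      exact div_self_le_one _
    have e3 : ∑ j ∈ range 1, (l.choose j : ℝ) * Pool.Agent.T6.H92.TG.D j
        (Pool.Agent.T6.H6.KS.qm Q (fun _ => True) (fun _ => True) F) m =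
        (∑ w ∈ K Q (2 * m), F w) / a Q (2 * m) := by
      rw [Finset.sum_range_one, Nat.choose_zero_right, Nat.cast_one, one_mul, ← e1 m]
      rfl
    rw [e1, e3, one_mul, pow_one] at h2
    refine h2.trans ?_
    have e4 := Pool.Agent.T6.H6.KS.qc_nonneg Q (fun _ => True) (fun _ => True) m
    have e5 : 0 ≤ C * ((l : ℝ) * Real.sqrt (lam / m)) := by positivity
    calc C * ((l : ℝ) * Real.sqrt (lam / m)) *
        Pool.Agent.T6.H6.KS.qc Q (fun _ => True) (fun _ => True) m ≤
        C * ((l : ℝ) * Real.sqrt (lam / m)) * 1 := mul_le_mul_of_nonneg_left e2 e5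
      _ ≤ C * (H * s) := by rw [mul_one]; exact mul_le_mul_of_nonneg_left hls hC
      _ ≤ C * (H * (ε / ((C + 1) * (H + 1)))) := by gcongr
      _ = ε * (C / (C + 1)) * (H / (H + 1)) := by field_simp
      _ ≤ ε * 1 * 1 := by
          have f1 : C / (C + 1) ≤ 1 := by rw [div_le_one (by positivity)]; linarith
          have f2 : (H : ℝ) / (H + 1) ≤ 1 := by rw [div_le_one (by positivity)]; linarith
          gcongr
      _ = ε := by ring
  · obtain ⟨C, δ, m₀, -, hδ, h⟩ := Pool.Agent.T6.H6.KS.smooth_form hQ hne hc hform k W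
    exact ⟨C, δ, m₀, hδ, fun m hm lam A B hA hB h1 h2 h3 h4 =>
      est_of (h m hm lam A B hA hB h1 h2 h3 h4)⟩

end

end Pool.Agent.Results.MP_aea6d5_co.SmoothLawOfTheType
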