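import Pool.Agent.T6.H44.LK.Cor

/-!
# The number of summands of a random lattice knot in a class closed under connected sums

Let `Q` be a class of knot types which is closed under connected sums (for instance all connected
sums of copies of `K` and of trefoils) and `k` a knot in `Q`. Among the polygons of length `n` in the
class, all but a proportion `C exp (- c n ^ (2/3))` have at least `c n ^ (2/3)` summands `k`. Hence
the number of polygons of length `n` of a single knot type in `Q` is at most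
`C exp (- c n ^ (2/3)) g ^ n`, `g` the growth rate of `Q`, if `k` is not trivial (`FNAG`), and if the
asymptotic form holds for this knot type then its growth rate is smaller than `g`. The bounds for
the connected sums with `N` copies of `k` are uniform in `N ≤ c n ^ (2/3)`.
-/

set_option autoImplicit false

namespace Pool.Agent.Results.MP_aea6d5_co.StretchedSummands

open Filter Topology KN KN.KQ

/-- the closed polygon `l` is a connected sum of some polygon and of `M` polygons of the type of `k` -/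
def Summands (k : List V) : ℕ → List V → Prop
  | 0 => fun _ => True
  | M + 1 => fun l => ∃ l1 v l2 : List Dir, Facing l1 v l2 ∧ Summands k M (vl (l1 ++ .zp :: l2)) ∧
      Same (vl (.zm :: v)) k ∧ Same l (vl (join l1 v l2))

/-- the closed polygon `l` is a connected sum of a polygon of the type of `k₀` and of `N` polygons of
the type of `k` -/
def SumN (k₀ k : List V) : ℕ → List V → Prop
  | 0 => fun l => Same l k₀
  | N + 1 => fun l => ∃ l1 v l2 : List Dir, Facing l1 v l2 ∧ SumN k₀ k N (vl (l1 ++ .zp :: l2)) ∧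
      Same (vl (.zm :: v)) k ∧ Same l (vl (join l1 v l2))

/-- the smallest class of knot types which is closed under connected sums and contains the
polygons in `S` -/
def Gen (S : List Dir → Prop) (w : List Dir) : Prop :=
  ∀ Q : List Dir → Prop, KClass Q → CSum Q → (∀ u, SAP u → S u → Q u) → Q w

theorem summands_eq (k : List V) : ∀ M, Summands k M = SumsC (fun _ => True) (fun _ => k) M
  | 0 => rfl
  | M + 1 => by
    funext l
    simp only [Summands, SumsC, summands_eq k M]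

theorem sumN_eq (k₀ k : List V) : ∀ N, SumN k₀ k N = SumsC (Ty k₀) (fun _ => k) N
  | 0 => rfl
  | N + 1 => by
    funext l
    simp only [SumN, SumsC, sumN_eq k₀ k N]

theorem gen_class (S : List Dir → Prop) : KClass (Gen S) ∧ CSum (Gen S) ∧
    ∀ w, SAP w → S w → Gen S w := by
  refine ⟨⟨?_, ?_⟩, ?_, ?_⟩
  · exact fun w w' hw hw' h hG Q hQ hc hS => hQ.same w w' hw hw' h (hG Q hQ hc hS)
  · exact fun w w' hw hw' h hG Q hQ hc hS => hQ.rev w w' hw hw' h (hG Q hQ hc hS)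
  · exact fun l1 v l2 hF h1 h2 Q hQ hc hS => hc l1 v l2 hF (h1 Q hQ hc hS) (h2 Q hQ hc hS)
  · exact fun w hw h Q _ _ hS => hS w hw h

/-- Let `pq Q n` be the number of polygons of length `n` in the class `Q` and `gr Q` its growth rate.

(1) For every class `Q` closed under connected sums and every `k` in `Q` there are `c, C > 0` such that
for all even `n = 2 j` and all `M ≤ c n ^ (2/3) + 1` at most `C exp (- c n ^ (2/3)) pq Q n` polygons of
length `n` in the class do not have `M` summands `k`.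
(2) If `Q₁` is a class contained in such a `Q` and no knot of `Q₁` has `M` summands `k` (`M` fixed) then
`pq Q₁ n ≤ C exp (- c n ^ (2/3)) pq Q n` and `pq Q₁ n ≤ C exp (- c n ^ (2/3)) gr Q ^ n`; if
`pq Q₁ n ≥ exp (- δ n ^ (2/3)) gr Q₁ ^ n` infinitely often for every `δ > 0`, for instance if the
asymptotic form of Q1 holds for `Q₁`, then `gr Q₁ < gr Q`.
(3) The same for the class of a single knot type in `Q` if the group of `k` has a finite quotient
which is not cyclic.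
(4) The number of polygons which are connected sums of `K` and `N` copies of `k`, uniformly in `N`.
(5) There are closed classes: the one generated by any set of polygons; the trefoil is such a `k`. -/
theorem result :
    (∀ Q : List Dir → Prop, KClass Q → CSum Q → ∀ k : List V,
      (∃ w, SAP w ∧ Q w ∧ Same (vl w) k) → ∃ c C : ℝ, 0 < c ∧ 0 < C ∧
      ∀ j M : ℕ, (M : ℝ) ≤ c * (2 * j : ℝ) ^ (2 / 3 : ℝ) + 1 →
        pq (fun w => Q w ∧ ¬ Summands k M (vl w)) (2 * j) ≤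
          C * Real.exp (-(c * (2 * j : ℝ) ^ (2 / 3 : ℝ))) * pq Q (2 * j)) ∧
    (∀ Q : List Dir → Prop, KClass Q → CSum Q → ∀ k : List V,
      (∃ w, SAP w ∧ Q w ∧ Same (vl w) k) → ∀ Q₁ : List Dir → Prop, KClass Q₁ →
      (∃ w, SAP w ∧ Q₁ w) → ∀ M : ℕ, (∀ w, SAP w → Q₁ w → Q w ∧ ¬ Summands k M (vl w)) →
      (∃ c C : ℝ, 0 < c ∧ 0 < C ∧ ∀ j : ℕ, 1 ≤ j →
        pq Q₁ (2 * j) ≤ C * Real.exp (-(c * (2 * j : ℝ) ^ (2 / 3 : ℝ))) * pq Q (2 * j) ∧
        pq Q₁ (2 * j) ≤ C * Real.exp (-(c * (2 * j : ℝ) ^ (2 / 3 : ℝ))) * gr Q ^ (2 * j)) ∧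
      ((∀ δ : ℝ, 0 < δ → ∃ᶠ j : ℕ in atTop,
        Real.exp (-(δ * (2 * j : ℝ) ^ (2 / 3 : ℝ))) * gr Q₁ ^ (2 * j) ≤ pq Q₁ (2 * j)) →
        gr Q₁ < gr Q) ∧
      (∀ A α : ℝ, 0 < A → Tendsto (fun j : ℕ => pq Q₁ (2 * j) /
          ((2 * j : ℝ) ^ (α - 3) * gr Q₁ ^ (2 * j))) atTop (𝓝 A) → gr Q₁ < gr Q)) ∧
    (∀ Q : List Dir → Prop, KClass Q → CSum Q → ∀ k : List V, FNAG k →
      (∃ w, SAP w ∧ Q w ∧ Same (vl w) k) → ∀ w₀ : List Dir, SAP w₀ → Q w₀ →
      (∃ c C : ℝ, 0 < c ∧ 0 < C ∧ ∀ j : ℕ, 1 ≤ j →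
        pq (KT (vl w₀)) (2 * j) ≤
          C * Real.exp (-(c * (2 * j : ℝ) ^ (2 / 3 : ℝ))) * pq Q (2 * j) ∧
        pq (KT (vl w₀)) (2 * j) ≤
          C * Real.exp (-(c * (2 * j : ℝ) ^ (2 / 3 : ℝ))) * gr Q ^ (2 * j)) ∧
      ((∀ δ : ℝ, 0 < δ → ∃ᶠ j : ℕ in atTop,
        Real.exp (-(δ * (2 * j : ℝ) ^ (2 / 3 : ℝ))) * gr (KT (vl w₀)) ^ (2 * j) ≤
          pq (KT (vl w₀)) (2 * j)) → gr (KT (vl w₀)) < gr Q) ∧
      (∀ A α : ℝ, 0 < A → Tendsto (fun j : ℕ => pq (KT (vl w₀)) (2 * j) /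
          ((2 * j : ℝ) ^ (α - 3) * gr (KT (vl w₀)) ^ (2 * j))) atTop (𝓝 A) →
        gr (KT (vl w₀)) < gr Q)) ∧
    (∀ w₀ : List Dir, SAP w₀ → ∀ k : List V, FNAG k → (∃ w, SAP w ∧ Same (vl w) k) →
      ∃ (c C : ℝ) (b : ℕ), 0 < c ∧ 0 < C ∧ ∀ᶠ j : ℕ in atTop, ∀ N : ℕ, 1 ≤ N →
        (N : ℝ) ≤ c * (2 * j : ℝ) ^ (2 / 3 : ℝ) →
        (∃ w, SAP w ∧ SumN (vl w₀) k N (vl w)) ∧
        ∀ l : List V, SumN (vl w₀) k N l →
        (c * (2 * j : ℝ) ^ (2 / 3 : ℝ) / N) ^ N * pq (KT (vl w₀)) (2 * j) ≤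
          C * pq (KT l) (2 * (j + b * N))) ∧
    (∀ S : List Dir → Prop, KClass (Gen S) ∧ CSum (Gen S) ∧ ∀ w, SAP w → S w → Gen S w) ∧
    (∃ w, SAP w ∧ FNAG (vl w)) := by
  refine ⟨fun Q hQ hc k hk => ?_, fun Q hQ hc k hk Q₁ hQ₁ hne M hM => ?_,
    fun Q hQ hc k hF hk w₀ hw₀ hQw => ?_, fun w₀ hw₀ k hF hk => ?_, gen_class, ⟨_, fnag_tre⟩⟩
  · obtain ⟨c, C, hc0, hC0, h⟩ := Pool.Agent.T6.H44.LK.few_summands hQ hc hk
    refine ⟨c, C, hc0, hC0, fun j M hM => ?_⟩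
    rw [summands_eq]
    exact h j M hM
  · obtain ⟨c, C, hc0, hC0, h⟩ := Pool.Agent.T6.H44.LK.sub_class (Q₁ := Q₁) hQ hc hk M
      (fun w hw h1 => ⟨(hM w hw h1).1, by
        have := (hM w hw h1).2
        rw [summands_eq] at this
        exact this⟩)
    have hne' : ∃ w, SAP w ∧ Q w := by
      obtain ⟨w, h1, h2, -⟩ := hk
      exact ⟨w, h1, h2⟩
    have hg := Pool.Agent.T6.H44.LK.gr_pos hQ hne'
    have hg₁ := Pool.Agent.T6.H44.LK.gr_pos hQ₁ hne
    have hlt : (∀ δ : ℝ, 0 < δ → ∃ᶠ j : ℕ in atTop,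
        Real.exp (-(δ * (2 * j : ℝ) ^ (2 / 3 : ℝ))) * gr Q₁ ^ (2 * j) ≤ pq Q₁ (2 * j)) →
        gr Q₁ < gr Q := fun hf =>
      Pool.Agent.T6.H44.LK.gr_lt hg₁ hg hc0 hC0 (p := fun j => pq Q₁ (2 * j))
        (fun j hj => (h j hj).2) hf
    exact ⟨⟨c, C, hc0, hC0, h⟩, hlt, fun A α hA hT =>
      hlt fun δ hδ => Pool.Agent.T6.H44.LK.form_lower hg₁ hA hT δ hδ⟩
  · obtain ⟨M, hM⟩ := Pool.Agent.T6.H44.LK.noHas hw₀ hF
    have hKQ : ∀ w, SAP w → KT (vl w₀) w → Q w := by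
      rintro w hw (h | h)
      · exact hQ.same w₀ w hw₀ hw h.symm hQw
      · refine hQ.rev w₀ w hw₀ hw ?_ hQw
        have h2 := (c_rev _ _).2 h
        rw [List.reverse_reverse] at h2
        exact h2.symm
    obtain ⟨c, C, hc0, hC0, h⟩ := Pool.Agent.T6.H44.LK.sub_class (Q₁ := KT (vl w₀)) hQ hc hk M
      (fun w hw h1 => ⟨hKQ w hw h1, hM w h1⟩)
    have hg := Pool.Agent.T6.H44.LK.gr_pos hQ ⟨w₀, hw₀, hQw⟩
    have hg₁ := Pool.Agent.T6.H44.LK.gr_pos (GEN.kt_class (vl w₀))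
      ⟨w₀, hw₀, Or.inl (Same.refl _)⟩
    have hlt : (∀ δ : ℝ, 0 < δ → ∃ᶠ j : ℕ in atTop,
        Real.exp (-(δ * (2 * j : ℝ) ^ (2 / 3 : ℝ))) * gr (KT (vl w₀)) ^ (2 * j) ≤
          pq (KT (vl w₀)) (2 * j)) → gr (KT (vl w₀)) < gr Q := fun hf =>
      Pool.Agent.T6.H44.LK.gr_lt hg₁ hg hc0 hC0 (p := fun j => pq (KT (vl w₀)) (2 * j))
        (fun j hj => (h j hj).2) hf
    exact ⟨⟨c, C, hc0, hC0, h⟩, hlt, fun A α hA hT =>
      hlt fun δ hδ => Pool.Agent.T6.H44.LK.form_lower hg₁ hA hT δ hδ⟩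
  · obtain ⟨c, C, b, hc0, hC0, h⟩ := Pool.Agent.T6.H44.LK.many_summands hw₀ hk hF
    refine ⟨c, C, b, hc0, hC0, ?_⟩
    filter_upwards [h] with j hj N hN1 hN
    refine ⟨?_, fun l hl => ?_⟩
    · rw [sumN_eq]
      exact sums_exist (Ty_TC _) ⟨w₀, hw₀, Same.refl _⟩ _ N fun _ _ => hk
    · rw [sumN_eq] at hl
      exact hj N hN1 hN l hl

end Pool.Agent.Results.MP_aea6d5_co.StretchedSummands
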